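import Pool.Agent.P.MP_cb63a5_lc.Cub.InP

namespace Pool.Agent.Results.MP_cb63a5_lc.CubicBipartite

open Pool.Agent.P.MP_cb63a5_lc

/-- The shortest alternating cycle problem for 3-regular bipartite graphs is in `P`. -/
theorem result : CubicSAC ∈ N68a2faeb.P := Cub.cubic_mem_P

end Pool.Agent.Results.MP_cb63a5_lc.CubicBipartite
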