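import Pool.Agent.P.MP_cb63a5_lc.Hard
import Pool.Agent.P.MP_cb63a5_lc.Member

namespace Pool.Agent.Results.MP_cb63a5_lc.NPComplete

open Pool.Agent.P.MP_cb63a5_lc

/-- The shortest alternating cycle problem is NP-complete. -/
theorem result : N793a5b8e.IsCompleteFor N68a2faeb.NP SAC := ⟨sac_mem_NP, sac_hard⟩

end Pool.Agent.Results.MP_cb63a5_lc.NPComplete
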